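import Pool.Agent.Lib_helper99.FGA.Wanted

set_option autoImplicit false

namespace Pool.Agent.FGA

open Finset Pool.Agent.Var35 Pool.Agent.Var73 Pool.Agent.PV Pool.Agent.FGP
open scoped ArithmeticFunction ArithmeticFunction.Moebius

theorem A09_even (C2 : ℝ) (hSG : ∀ k : ℕ, 1 ≤ k → SG k = if 2 ∣ k then
      2 * C2 * ∏ p ∈ k.primeFactors.erase 2, (((p : ℝ) - 1) / ((p : ℝ) - 2)) else 0)
    (M k : ℕ) (hM : 1 ≤ M) (h2 : 2 ∣ M) (hk : 1 ≤ k) :
    SG (k * M) = GM C2 M * FM M k := by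
  have hkM : 1 ≤ k * M := Nat.mul_pos hk hM
  rw [hSG _ hkM, if_pos (Dvd.dvd.mul_left h2 k)]
  unfold GM FM
  have e : (k * M).primeFactors.erase 2 =
      M.primeFactors.erase 2 ∪ k.primeFactors.filter (fun p => ¬ p ∣ M) := by
    rw [Nat.primeFactors_mul (by omega) (by omega)]
    ext p
    simp only [mem_erase, mem_union, mem_filter, Nat.mem_primeFactors]
    constructor
    · rintro ⟨h1, h3 | h3⟩
      · by_cases h4 : p ∣ M
        · exact Or.inl ⟨h1, h3.1, h4, by omega⟩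
        · exact Or.inr ⟨h3, h4⟩
      · exact Or.inl ⟨h1, h3⟩
    · rintro (⟨h1, h3⟩ | ⟨h3, h4⟩)
      · exact ⟨h1, Or.inr h3⟩
      · exact ⟨fun h => h4 (h ▸ h2), Or.inl h3⟩
  have hd : Disjoint (M.primeFactors.erase 2) (k.primeFactors.filter (fun p => ¬ p ∣ M)) := by
    rw [Finset.disjoint_left]
    intro p hp hp2
    simp only [mem_erase, mem_filter, Nat.mem_primeFactors] at hp hp2
    exact hp2.2 hp.2.2.1
  rw [e, prod_union hd]
  ring

theorem A09_pr : A09 := by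
  intro C2 hSG
  refine ⟨fun M k hM h2 hk => A09_even C2 hSG M k hM h2 hk, fun Q k hQ hQ2 hk => ?_⟩
  by_cases h2 : 2 ∣ k
  · obtain ⟨j, rfl⟩ := h2
    have hj : 1 ≤ j := by omega
    have e1 : 2 * j * Q = j * (2 * Q) := by ring
    rw [if_pos (Dvd.intro j rfl), e1, A09_even C2 hSG (2 * Q) j (by omega) (Dvd.intro Q rfl) hj,
      Nat.mul_div_cancel_left j (by norm_num)]
  · rw [if_neg h2, hSG _ (Nat.mul_pos hk hQ), if_neg]
    intro h
    rcases (Nat.Prime.dvd_mul Nat.prime_two).1 h with h | h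
    · exact h2 h
    · exact hQ2 h

end Pool.Agent.FGA

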