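import Pool.Agent.Lib_helper99.FGA.Wanted

set_option autoImplicit false

namespace Pool.Agent.FGA

open Finset Pool.Agent.Var35 Pool.Agent.Var73 Pool.Agent.PV Pool.Agent.FGP
open scoped ArithmeticFunction ArithmeticFunction.Moebius

/-- the local weight -/
noncomputable def A16_g (p : ℕ) : ℝ := (1 + 1 / Real.sqrt p) ^ 8 - 1

theorem A16_g_nonneg (p : ℕ) : 0 ≤ A16_g p := by
  have h : 0 ≤ 1 / Real.sqrt p := by positivity
  have : (1 : ℝ) ≤ (1 + 1 / Real.sqrt p) ^ 8 := one_le_pow₀ (by linarith)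
  unfold A16_g
  linarith

theorem A16_g_le (p : ℕ) (hp : 1 ≤ p) : A16_g p ≤ 255 / Real.sqrt p := by
  have hp' : (1 : ℝ) ≤ p := by exact_mod_cast hp
  have hs : 1 ≤ Real.sqrt p := Real.one_le_sqrt.2 hp'
  obtain ⟨x, hx⟩ : ∃ x, x = 1 / Real.sqrt p := ⟨_, rfl⟩
  have hx0 : 0 ≤ x := by rw [hx]; positivity
  have hx1 : x ≤ 1 := by
    rw [hx, div_le_one (by linarith)]
    exact hs
  have e : 255 / Real.sqrt p = 255 * x := by rw [hx]; ring
  unfold A16_g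
  rw [e, ← hx]
  have h2 : x ^ 2 ≤ x := by nlinarith
  have h3 : x ^ 3 ≤ x := by nlinarith [mul_nonneg hx0 hx0, pow_nonneg hx0 3]
  have h4 : x ^ 4 ≤ x := by nlinarith [mul_nonneg hx0 hx0, pow_nonneg hx0 3]
  have h5 : x ^ 5 ≤ x := by nlinarith [mul_nonneg hx0 hx0, pow_nonneg hx0 3, pow_nonneg hx0 4]
  have h6 : x ^ 6 ≤ x := by nlinarith [mul_nonneg hx0 hx0, pow_nonneg hx0 3, pow_nonneg hx0 5]
  have h7 : x ^ 7 ≤ x := by nlinarith [mul_nonneg hx0 hx0, pow_nonneg hx0 3, pow_nonneg hx0 6]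
  have h8 : x ^ 8 ≤ x := by nlinarith [mul_nonneg hx0 hx0, pow_nonneg hx0 3, pow_nonneg hx0 7]
  nlinarith

theorem A16_sum : ∃ S : ℝ, 0 < S ∧ ∀ s : Finset ℕ, (∀ p ∈ s, 1 ≤ p) → ∑ p ∈ s, A16_g p / p ≤ S := by
  have hs : Summable (fun n : ℕ => 1 / (n : ℝ) ^ (3 / 2 : ℝ)) :=
    Real.summable_one_div_nat_rpow.2 (by norm_num)
  refine ⟨255 * ∑' n : ℕ, 1 / (n : ℝ) ^ (3 / 2 : ℝ) + 1, ?_, fun s hs1 => ?_⟩
  · have : 0 ≤ ∑' n : ℕ, 1 / (n : ℝ) ^ (3 / 2 : ℝ) := tsum_nonneg fun n => by positivity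
    linarith
  · have h1 : ∑ p ∈ s, A16_g p / p ≤ ∑ p ∈ s, 255 * (1 / (p : ℝ) ^ (3 / 2 : ℝ)) := by
      refine sum_le_sum fun p hp => ?_
      have hp1 : (1 : ℝ) ≤ p := by exact_mod_cast hs1 p hp
      have hp0 : (0 : ℝ) < p := by linarith
      have e : (p : ℝ) ^ (3 / 2 : ℝ) = p * Real.sqrt p := by
        rw [show (3 / 2 : ℝ) = 1 + 1 / 2 by norm_num, Real.rpow_add hp0, Real.rpow_one, Real.sqrt_eq_rpow]
      rw [e]
      have hq : 0 < Real.sqrt p := Real.sqrt_pos.2 hp0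
      calc A16_g p / p ≤ (255 / Real.sqrt p) / p := by
            gcongr
            exact A16_g_le p (hs1 p hp)
        _ = 255 * (1 / (p * Real.sqrt p)) := by field_simp
    refine h1.trans ?_
    rw [← mul_sum]
    have h2 : ∑ p ∈ s, 1 / (p : ℝ) ^ (3 / 2 : ℝ) ≤ ∑' n : ℕ, 1 / (n : ℝ) ^ (3 / 2 : ℝ) :=
      hs.sum_le_tsum s fun n _ => by positivity
    linarith

theorem A16_count (Y : ℕ) (S : Finset ℕ) :
    (((Icc 1 Y).filter (fun Q => S ⊆ Q.primeFactors)).card : ℝ) ≤ Y / ((∏ p ∈ S, p : ℕ) : ℝ) := by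
  have h1 : ((Icc 1 Y).filter (fun Q => S ⊆ Q.primeFactors)).card ≤ Y / (∏ p ∈ S, p) := by
    rw [← Nat.Ioc_filter_dvd_card_eq_div]
    refine card_le_card fun Q hQ => ?_
    rw [mem_filter, mem_Icc] at hQ
    rw [mem_filter, mem_Ioc]
    refine ⟨⟨by omega, hQ.1.2⟩, ?_⟩
    exact (prod_dvd_prod_of_subset _ _ _ hQ.2).trans (Nat.prod_primeFactors_dvd Q)
  have h2 : (((Icc 1 Y).filter (fun Q => S ⊆ Q.primeFactors)).card : ℝ) ≤ ((Y / (∏ p ∈ S, p) : ℕ) : ℝ) :=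
    Nat.cast_le.2 h1
  exact h2.trans Nat.cast_div_le

theorem A16_pr : A16 := by
  obtain ⟨S, hS, hsum⟩ := A16_sum
  refine ⟨Real.exp S, Real.exp_pos _, fun Y hY => ?_⟩
  classical
  obtain ⟨P, hP⟩ : ∃ P : Finset ℕ, P = (Icc 1 Y).filter Nat.Prime := ⟨_, rfl⟩
  have hPp : ∀ p ∈ P, 1 ≤ p := by
    intro p hp
    rw [hP, mem_filter, mem_Icc] at hp
    exact hp.1.1
  have h1 : ∀ Q ∈ Icc 1 Y, ks Q ^ 8 =
      ∑ T ∈ P.powerset, if T ⊆ Q.primeFactors then ∏ p ∈ T, A16_g p else 0 := by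
    intro Q hQ
    rw [mem_Icc] at hQ
    have e1 : ks Q ^ 8 = ∏ p ∈ Q.primeFactors, (1 + A16_g p) := by
      unfold ks
      rw [← prod_pow]
      refine prod_congr rfl fun p _ => ?_
      unfold A16_g
      ring
    rw [e1, prod_one_add, ← sum_filter]
    refine sum_congr ?_ fun _ _ => rfl
    ext T
    rw [mem_powerset, mem_filter, mem_powerset]
    refine ⟨fun h => ⟨fun p hp => ?_, h⟩, fun h => h.2⟩
    have hpp := Nat.mem_primeFactors.1 (h hp)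
    rw [hP, mem_filter, mem_Icc]
    exact ⟨⟨hpp.1.one_lt.le, (Nat.le_of_dvd (by omega) hpp.2.1).trans hQ.2⟩, hpp.1⟩
  rw [sum_congr rfl h1, sum_comm]
  have h2 : ∀ T ∈ P.powerset, (∑ Q ∈ Icc 1 Y, if T ⊆ Q.primeFactors then ∏ p ∈ T, A16_g p else 0) ≤
      Y * ∏ p ∈ T, (A16_g p / p) := by
    intro T _
    rw [← sum_filter, sum_const, nsmul_eq_mul, prod_div_distrib]
    have h3 : 0 ≤ ∏ p ∈ T, A16_g p := prod_nonneg fun p _ => A16_g_nonneg p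
    have h4 := mul_le_mul_of_nonneg_right (A16_count Y T) h3
    refine h4.trans (le_of_eq ?_)
    push_cast
    ring
  refine (sum_le_sum h2).trans ?_
  rw [← mul_sum, ← prod_one_add, mul_comm]
  refine mul_le_mul_of_nonneg_right ?_ (Nat.cast_nonneg _)
  calc ∏ p ∈ P, (1 + A16_g p / p) ≤ ∏ p ∈ P, Real.exp (A16_g p / p) := by
        refine prod_le_prod (fun p _ => ?_) fun p _ => ?_
        · have := A16_g_nonneg p
          positivity
        · rw [add_comm]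
          exact Real.add_one_le_exp _
    _ = Real.exp (∑ p ∈ P, A16_g p / p) := (Real.exp_sum _ _).symm
    _ ≤ Real.exp S := Real.exp_le_exp.2 (hsum P hPp)

end Pool.Agent.FGA

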